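import Pool.Agent.H9.BraidCurve.Main

/-!
# Non-constant maps from curves of genus `< (n-1)(n-2)/2` to `SG_n`, for every `n > 4`
-/

namespace Pool.Agent.Results.MP_e04167_ag.LowGenusMapsToSGn

open H9.BraidCurve

/-- For EVERY integer `n > 4` there are a connected non-singular affine algebraic curve `Γ` over
`ℂ` (coordinate ring `R`, function field `K`, points = `ℂ`-algebra homomorphisms `R → ℂ`) of genus
`g < (n-1)(n-2)/2`, and regular functions `z_1, ..., z_n` on `Γ` such that
`p ↦ (z_1(p), ..., z_n(p))` takes values in `SG_n` and is not constant.  (A tuple of regular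
functions is in particular a holomorphic map.) -/
theorem result : ∀ n : ℕ, 4 < n →
    ∃ (R K : Type) (_ : CommRing R) (_ : Field K) (_ : Algebra ℂ R) (_ : Algebra ℂ K)
      (_ : Algebra R K) (_ : IsScalarTower ℂ R K) (_ : IsFractionRing R K),
      IsSmoothAffineCurve R ∧
      (∃ g : ℕ, 2 * g < (n - 1) * (n - 2) ∧ GenusAtMost K g) ∧
      ∃ z : Fin n → R,
        (∀ p : R →ₐ[ℂ] ℂ, (fun i => p (z i)) ∈ SG n) ∧
        ∃ p p' : R →ₐ[ℂ] ℂ, (fun i => p (z i)) ≠ (fun i => p' (z i)) := by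
  intro n hn
  obtain ⟨m, ε, hε, rfl⟩ : ∃ m ε : ℕ, ε ≤ 1 ∧ n = 2 * m + ε :=
    ⟨n / 2, n % 2, by omega, by omega⟩
  exact main_mε (by omega) hε hn

end Pool.Agent.Results.MP_e04167_ag.LowGenusMapsToSGn
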